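import Mathlib

/-!
# Generators of hypercyclic algebras: definitions
-/

set_option autoImplicit false

namespace Pool.Agent.Q186.HCA

variable {X : Type*} [NormedAddCommGroup X] [NormedSpace ℂ X]

/-- The powers of `x` for the product `μ`: `pw μ x n` is `x ^ (n + 1)`. -/
noncomputable def pw (μ : X →L[ℂ] X →L[ℂ] X) (x : X) : ℕ → X
  | 0 => x
  | n + 1 => μ x (pw μ x n)

/-- The subalgebra `A(x)` generated by `x`: all finite linear combinations of the powers `x ^ n`,
`n ≥ 1`. -/
noncomputable def Alg (μ : X →L[ℂ] X →L[ℂ] X) (x : X) : Submodule ℂ X :=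
  Submodule.span ℂ (Set.range (pw μ x))

/-- `y` is hypercyclic for `T`: its orbit is dense. -/
def Hypercyclic (T : X →L[ℂ] X) (y : X) : Prop := Dense (Set.range fun n : ℕ => T^[n] y)

/-- The set `G(T)` of all `x` that generate a hypercyclic algebra for `T`: `x ≠ 0` and every
nonzero element of `A(x)` is hypercyclic. -/
def G (μ : X →L[ℂ] X →L[ℂ] X) (T : X →L[ℂ] X) : Set X :=
  {x | x ≠ 0 ∧ ∀ y ∈ Alg μ x, y ≠ 0 → Hypercyclic T y}

variable (X)

/-- There are a continuous bilinear, associative and commutative product `μ` on `X` without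
nonzero nilpotent elements (`x ^ 2 = 0` only for `x = 0`) and a bounded linear operator `T` such
that `G(T)` is not empty, not dense and not residual, and for which the powers of every
`x` in `G(T)` are linearly independent. -/
def Counterexample : Prop :=
  ∃ (μ : X →L[ℂ] X →L[ℂ] X) (T : X →L[ℂ] X),
    (∀ x y z, μ (μ x y) z = μ x (μ y z)) ∧ (∀ x y, μ x y = μ y x) ∧
    (∀ x, μ x x = 0 → x = 0) ∧
    (G μ T).Nonempty ∧ (∀ x ∈ G μ T, LinearIndependent ℂ (pw μ x)) ∧
    ¬ Dense (G μ T) ∧ G μ T ∉ residual X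

end Pool.Agent.Q186.HCA
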