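import Mathlib
import Pool.Agent.Q186.HCA.Defs

set_option autoImplicit false

open scoped ENNReal
open Filter Topology

namespace Pool.Agent.Q186.HCA

/-- the Banach space `ℓ¹` -/
noncomputable abbrev E := lp (fun _ : ℕ => ℂ) 1

lemma memE (f : ℕ → ℂ) : Memℓp f 1 ↔ Summable fun i => ‖f i‖ := by
  have h := memℓp_gen_iff (E := fun _ : ℕ => ℂ) (p := 1) (f := f) (by simp)
  simpa using h

lemma normE (f : E) : ‖f‖ = ∑' i, ‖f i‖ := by
  have h := lp.norm_eq_tsum_rpow (E := fun _ : ℕ => ℂ) (p := 1) (by simp) f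
  simpa using h

lemma summE (f : E) : Summable fun i => ‖f i‖ := (memE _).1 (lp.memℓp f)

lemma norm_apply_le (f : E) (n : ℕ) : ‖f n‖ ≤ ‖f‖ := lp.norm_apply_le_norm (by norm_num) f n

/-- the coordinatewise product -/
noncomputable def prod (x y : E) : E :=
  ⟨fun n => x n * y n, (memE _).2 (by
    refine Summable.of_nonneg_of_le (fun n => norm_nonneg _) (fun n => ?_) ((summE y).mul_left ‖x‖)
    rw [norm_mul]
    exact mul_le_mul_of_nonneg_right (norm_apply_le x n) (norm_nonneg _))⟩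

lemma prod_apply (x y : E) (n : ℕ) : prod x y n = x n * y n := rfl

lemma norm_prod (x y : E) : ‖prod x y‖ ≤ ‖x‖ * ‖y‖ := by
  rw [normE, normE y, ← tsum_mul_left]
  refine Summable.tsum_le_tsum (fun n => ?_) (summE _) ((summE y).mul_left ‖x‖)
  rw [prod_apply, norm_mul]
  exact mul_le_mul_of_nonneg_right (norm_apply_le x n) (norm_nonneg _)

/-- the coordinatewise product as a continuous bilinear map -/
noncomputable def mu : E →L[ℂ] E →L[ℂ] E :=
  LinearMap.mkContinuous₂
    (LinearMap.mk₂ ℂ prod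
      (fun x x' y => by
        ext n
        simp only [prod_apply, lp.coeFn_add, Pi.add_apply]; ring)
      (fun c x y => by
        ext n
        simp only [prod_apply, lp.coeFn_smul, Pi.smul_apply, smul_eq_mul]; ring)
      (fun x y y' => by
        ext n
        simp only [prod_apply, lp.coeFn_add, Pi.add_apply]; ring)
      (fun c x y => by
        ext n
        simp only [prod_apply, lp.coeFn_smul, Pi.smul_apply, smul_eq_mul]; ring)) 1
    (fun x y => by rw [one_mul]; exact norm_prod x y)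

lemma mu_apply (x y : E) (n : ℕ) : mu x y n = x n * y n := rfl

lemma pw_apply (x : E) (k n : ℕ) : pw mu x k n = x n ^ (k + 1) := by
  induction k with
  | zero => simp [pw]
  | succ k ih => rw [pw, mu_apply, ih]; ring

/-- twice the backward shift -/
noncomputable def U : E →L[ℂ] E :=
  LinearMap.mkContinuous
    { toFun := fun f => ⟨fun n => 2 * f (n + 1), (memE _).2 (by
        have := ((summable_nat_add_iff 1).2 (summE f)).mul_left 2
        refine this.congr fun n => ?_
        rw [norm_mul]; norm_num)⟩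
      map_add' := fun f g => by
        ext n
        simp only [lp.coeFn_add, Pi.add_apply]; ring
      map_smul' := fun c f => by
        ext n
        simp only [lp.coeFn_smul, Pi.smul_apply, smul_eq_mul, RingHom.id_apply]; ring } 2
    (fun f => by
      rw [normE, normE, ← tsum_mul_left]
      have h1 := (summable_nat_add_iff 1).2 (summE f)
      have h2 : ∑' n, ‖f (n + 1)‖ ≤ ∑' n, ‖f n‖ :=
        tsum_comp_le_tsum_of_inj (summE f) (fun _ => norm_nonneg _) (add_left_injective 1)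
      calc ∑' n, ‖(2 : ℂ) * f (n + 1)‖ = ∑' n, 2 * ‖f (n + 1)‖ := by
            refine tsum_congr fun n => ?_
            rw [norm_mul]; norm_num
        _ = 2 * ∑' n, ‖f (n + 1)‖ := tsum_mul_left
        _ ≤ 2 * ∑' n, ‖f n‖ := by linarith
        _ = ∑' n, 2 * ‖f n‖ := tsum_mul_left.symm)

lemma U_apply (f : E) (n : ℕ) : U f n = 2 * f (n + 1) := rfl

lemma U_iter (k : ℕ) (f : E) (n : ℕ) : (U^[k] f) n = 2 ^ k * f (n + k) := by
  induction k generalizing n with
  | zero => simp
  | succ k ih =>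
    rw [Function.iterate_succ_apply', U_apply, ih]
    rw [show n + 1 + k = n + (k + 1) by ring]
    ring

/-- the vector `g = (0, 1/4, 1/9, ...)` -/
noncomputable def g : E :=
  ⟨fun n => if n = 0 then 0 else 1 / ((n : ℂ) + 1) ^ 2, (memE _).2 (by
    have h1 : Summable fun j : ℕ => 1 / (((j + 1 : ℕ) : ℝ)) ^ 2 :=
      (summable_nat_add_iff 1).2 (Real.summable_one_div_nat_pow.2 (by norm_num))
    refine Summable.of_nonneg_of_le (fun _ => norm_nonneg _) (fun n => ?_) h1
    split_ifs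
    · rw [norm_zero]; positivity
    · rw [norm_div, norm_one, norm_pow, ← Nat.cast_succ, Complex.norm_natCast])⟩

lemma g_apply (n : ℕ) : g n = if n = 0 then 0 else 1 / ((n : ℂ) + 1) ^ 2 := rfl

lemma g_zero : g 0 = 0 := by rw [g_apply, if_pos rfl]

lemma g_pos {n : ℕ} (hn : n ≠ 0) : g n = 1 / ((n : ℂ) + 1) ^ 2 := by
  rw [g_apply, if_neg hn]

/-- evaluation at `0` -/
noncomputable def ev0 : E →L[ℂ] ℂ :=
  LinearMap.mkContinuous
    { toFun := fun f => f 0
      map_add' := fun f g => by rw [lp.coeFn_add]; rfl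
      map_smul' := fun c f => by rw [lp.coeFn_smul]; rfl } 1
    (fun f => by rw [one_mul]; exact norm_apply_le f 0)

lemma ev0_apply (f : E) : ev0 f = f 0 := rfl

/-- `V x = x + x 0 g` -/
noncomputable def V : E →L[ℂ] E := ContinuousLinearMap.id ℂ E + ev0.smulRight g

/-- the inverse of `V` -/
noncomputable def V' : E →L[ℂ] E := ContinuousLinearMap.id ℂ E - ev0.smulRight g

lemma V_apply (x : E) : V x = x + x 0 • g := rfl

lemma V'_apply (x : E) : V' x = x - x 0 • g := rfl

lemma V_zero (x : E) : V x 0 = x 0 := by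
  rw [V_apply, lp.coeFn_add, Pi.add_apply, lp.coeFn_smul, Pi.smul_apply, g_zero, smul_zero,
    add_zero]

lemma V'_V (x : E) : V' (V x) = x := by
  rw [V'_apply, V_zero, V_apply]; abel

lemma V_V' (x : E) : V (V' x) = x := by
  have : V' x 0 = x 0 := by
    rw [V'_apply, lp.coeFn_sub, Pi.sub_apply, lp.coeFn_smul, Pi.smul_apply, g_zero, smul_zero,
      sub_zero]
  rw [V_apply, this, V'_apply]; abel

/-- the operator `T = V⁻¹ U V` -/
noncomputable def T : E →L[ℂ] E := V'.comp (U.comp V)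

lemma T_iter (k : ℕ) (x : E) : T^[k] x = V' (U^[k] (V x)) := by
  induction k with
  | zero => simp [V'_V]
  | succ k ih =>
    rw [Function.iterate_succ_apply', ih, Function.iterate_succ_apply']
    change V' (U (V (V' (U^[k] (V x))))) = _
    rw [V_V']

lemma hypercyclic_iff (x : E) : Hypercyclic T x ↔ Hypercyclic U (V x) := by
  unfold Hypercyclic
  have hV : Function.Surjective V := fun y => ⟨V' y, V_V' y⟩
  have hV' : Function.Surjective V' := fun y => ⟨V y, V'_V y⟩
  constructor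
  · intro h
    have h1 := hV.denseRange.dense_image V.continuous h
    refine h1.mono ?_
    rintro _ ⟨_, ⟨k, rfl⟩, rfl⟩
    refine ⟨k, ?_⟩
    simp only [T_iter, V_V']
  · intro h
    have h1 := hV'.denseRange.dense_image V'.continuous h
    refine h1.mono ?_
    rintro _ ⟨_, ⟨k, rfl⟩, rfl⟩
    exact ⟨k, T_iter k x⟩

/-- if the orbit of `y` is outside the unit ball eventually then `y` is not hypercyclic -/
lemma not_hypercyclic {y : E} {K : ℕ} (h : ∀ k, K ≤ k → 1 ≤ ‖U^[k] y‖) : ¬ Hypercyclic U y := by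
  intro hd
  set F : Set E := (fun k => U^[k] y) '' {k | k < K} with hF
  have hfin : F.Finite := (Set.finite_lt_nat K).image _
  have hsub : Metric.ball (0 : E) 1 ⊆ F := by
    intro x hx
    have h1 : x ∈ closure (Set.range fun k : ℕ => U^[k] y) := hd x
    have h2 : x ∈ closure (Metric.ball (0 : E) 1 ∩ Set.range fun k : ℕ => U^[k] y) :=
      Metric.isOpen_ball.inter_closure ⟨hx, h1⟩
    have h3 : Metric.ball (0 : E) 1 ∩ (Set.range fun k : ℕ => U^[k] y) ⊆ F := by
      rintro _ ⟨hz, k, rfl⟩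
      refine ⟨k, ?_, rfl⟩
      by_contra hk
      have := h k (not_lt.1 hk)
      rw [mem_ball_zero_iff] at hz
      exact absurd hz (not_lt.2 this)
    have h4 := closure_mono h3 h2
    rwa [hfin.isClosed.closure_eq] at h4
  have hinf : (Metric.ball (0 : E) 1).Infinite := by
    have hne : (lp.single 1 0 (1 : ℂ) : E) ≠ 0 := by
      intro h0
      have h1 := congrArg (fun f : E => f 0) h0
      simp only [lp.coeFn_zero, Pi.zero_apply] at h1
      rw [lp.single_apply_self (E := fun _ : ℕ => ℂ) 1 0 (1 : ℂ)] at h1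
      exact one_ne_zero h1
    have : Nontrivial E := ⟨⟨_, _, hne⟩⟩
    have : (𝓝[≠] (0 : E)).NeBot := inferInstance
    exact infinite_of_mem_nhds 0 (Metric.ball_mem_nhds 0 one_pos)
  exact hinf (hfin.subset hsub)

lemma single_ne : (lp.single 1 0 (1 : ℂ) : E) ≠ 0 := by
  intro h0
  have h1 := congrArg (fun f : E => f 0) h0
  simp only [lp.coeFn_zero, Pi.zero_apply] at h1
  rw [lp.single_apply_self (E := fun _ : ℕ => ℂ) 1 0 (1 : ℂ)] at h1
  exact one_ne_zero h1

/-- if `x 0 ≠ 0` then `x ^ 2` is not hypercyclic for `T` -/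
lemma square_not_hypercyclic {x : E} (hx : x 0 ≠ 0) : ¬ Hypercyclic T (mu x x) := by
  rw [hypercyclic_iff]
  set a := ‖x 0‖ with ha
  have ha0 : 0 < a := norm_pos_iff.2 hx
  set y := V (mu x x) with hy
  have hyn : ∀ n, n ≠ 0 → y n = x n ^ 2 + (x 0) ^ 2 * (1 / ((n : ℂ) + 1) ^ 2) := by
    intro n hn
    rw [hy, V_apply, lp.coeFn_add, Pi.add_apply, lp.coeFn_smul, Pi.smul_apply, g_pos hn,
      mu_apply, mu_apply, smul_eq_mul]
    ring
  -- the tail of `x` is small
  have htail : ∀ᶠ k : ℕ in atTop, ∑' j, ‖x (j + k)‖ < a / 4 :=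
    (tendsto_sum_nat_add fun n => ‖x n‖).eventually (gt_mem_nhds (by positivity))
  have hexp : ∀ᶠ k : ℕ in atTop, ((2 * k : ℕ) : ℝ) ^ 2 < 3 / 4 * a ^ 2 * 2 ^ k := by
    have h1 : Tendsto (fun k : ℕ => ((k : ℝ) ^ 2) / 2 ^ k) atTop (𝓝 0) :=
      tendsto_pow_const_div_const_pow_of_one_lt 2 (by norm_num)
    have h2 := h1.eventually (gt_mem_nhds (show (0 : ℝ) < 3 / 16 * a ^ 2 by positivity))
    filter_upwards [h2] with k hk
    rw [div_lt_iff₀ (by positivity)] at hk
    push_cast
    nlinarith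
  obtain ⟨K, hK⟩ := eventually_atTop.1 (htail.and (hexp.and (eventually_ge_atTop 1)))
  refine not_hypercyclic (K := K) fun k hk => ?_
  obtain ⟨h1, h2, h3⟩ := hK k hk
  by_contra hlt
  push Not at hlt
  -- every coordinate of `y` from `k` on is small
  have h4 : ∀ n, k ≤ n → ‖y n‖ * 2 ^ k < 1 := by
    intro n hn
    obtain ⟨j, rfl⟩ := Nat.exists_eq_add_of_le hn
    have h5 := norm_apply_le (U^[k] y) j
    rw [U_iter, norm_mul, norm_pow] at h5
    rw [show k + j = j + k by ring, mul_comm]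
    have h6 : ‖(2 : ℂ)‖ = 2 := by norm_num
    rw [h6] at h5
    linarith
  have h7 : ∀ j, j < k → a / (4 * k) ≤ ‖x (j + k)‖ := by
    intro j hj
    have hn : j + k ≠ 0 := by omega
    have h8 := h4 (j + k) (by omega)
    rw [hyn _ hn] at h8
    have h9 : ‖x 0 ^ 2 * (1 / (((j + k : ℕ) : ℂ) + 1) ^ 2)‖ = a ^ 2 / ((j + k : ℕ) + 1 : ℝ) ^ 2 := by
      rw [norm_mul, norm_pow, norm_div, norm_one, norm_pow, ← Nat.cast_succ, Complex.norm_natCast,
        ← ha]
      push_cast
      ring
    have h10 : a ^ 2 / ((j + k : ℕ) + 1 : ℝ) ^ 2 - ‖x (j + k)‖ ^ 2 ≤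
        ‖x (j + k) ^ 2 + x 0 ^ 2 * (1 / (((j + k : ℕ) : ℂ) + 1) ^ 2)‖ := by
      rw [← h9, ← norm_pow]
      have := norm_sub_norm_le (x 0 ^ 2 * (1 / (((j + k : ℕ) : ℂ) + 1) ^ 2)) (-(x (j + k) ^ 2))
      rw [norm_neg, sub_neg_eq_add, add_comm (x 0 ^ 2 * _)] at this
      exact this
    have hk0 : (0 : ℝ) < k := by exact_mod_cast h3
    have h11 : a ^ 2 / (2 * k : ℝ) ^ 2 ≤ a ^ 2 / ((j + k : ℕ) + 1 : ℝ) ^ 2 := by
      apply div_le_div_of_nonneg_left (by positivity) (by positivity)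
      apply pow_le_pow_left₀ (by positivity)
      have : j + k + 1 ≤ 2 * k := by omega
      exact_mod_cast this
    have h2' : (2 * k : ℝ) ^ 2 < 3 / 4 * a ^ 2 * 2 ^ k := by exact_mod_cast h2
    have h12 : (1 : ℝ) < 3 / 4 * (a ^ 2 / (2 * k : ℝ) ^ 2) * 2 ^ k := by
      rw [mul_div_assoc', div_mul_eq_mul_div, one_lt_div (by positivity)]
      exact h2'
    have hp : (0 : ℝ) < 2 ^ k := by positivity
    have h13 : 1 / 4 * (a ^ 2 / (2 * k : ℝ) ^ 2) < ‖x (j + k)‖ ^ 2 := by
      have h14 : (a ^ 2 / (2 * k : ℝ) ^ 2 - ‖x (j + k)‖ ^ 2) * 2 ^ k < 1 := by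
        refine lt_of_le_of_lt (mul_le_mul_of_nonneg_right ?_ hp.le) h8
        linarith
      by_contra hcon
      push Not at hcon
      nlinarith
    have h15 : (a / (4 * k)) ^ 2 ≤ ‖x (j + k)‖ ^ 2 := by
      have : (a / (4 * k)) ^ 2 = 1 / 4 * (a ^ 2 / (2 * k : ℝ) ^ 2) := by
        field_simp; ring
      rw [this]; exact h13.le
    exact (pow_le_pow_iff_left₀ (by positivity) (norm_nonneg _) two_ne_zero).1 h15
  have h16 : a / 4 ≤ ∑ j ∈ Finset.range k, ‖x (j + k)‖ := by
    have hk0 : (0 : ℝ) < k := by exact_mod_cast h3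
    calc a / 4 = ∑ j ∈ Finset.range k, a / (4 * k) := by
          rw [Finset.sum_const, Finset.card_range, nsmul_eq_mul]; field_simp
      _ ≤ _ := Finset.sum_le_sum fun j hj => h7 j (Finset.mem_range.1 hj)
  have h17 : ∑ j ∈ Finset.range k, ‖x (j + k)‖ ≤ ∑' j, ‖x (j + k)‖ :=
    ((summable_nat_add_iff k).2 (summE x)).sum_le_tsum _ fun _ _ => norm_nonneg _
  linarith

/-- `G(T)` is contained in the hyperplane `x 0 = 0` -/
lemma G_subset {x : E} (hx : x ∈ G mu T) : x 0 = 0 := by
  by_contra h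
  have h1 : mu x x ∈ Alg mu x := Submodule.subset_span ⟨1, rfl⟩
  have h2 : mu x x ≠ 0 := by
    intro h0
    have h3 : (mu x x) 0 = 0 := by rw [h0]; rfl
    rw [mu_apply] at h3
    exact h (by simpa using h3)
  exact square_not_hypercyclic h (hx.2 _ h1 h2)

lemma not_dense : ¬ Dense (G mu T) := by
  intro hd
  have h1 : (lp.single 1 0 (1 : ℂ) : E) ∈ closure (G mu T) := hd _
  have h2 : G mu T ⊆ {x | ev0 x = 0} := fun x hx => G_subset hx
  have h3 : IsClosed {x : E | ev0 x = 0} := isClosed_eq ev0.continuous continuous_const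
  have h4 : ev0 (lp.single 1 0 (1 : ℂ) : E) = 0 := closure_minimal h2 h3 h1
  rw [ev0_apply, lp.single_apply_self (E := fun _ : ℕ => ℂ) 1 0 (1 : ℂ)] at h4
  exact one_ne_zero h4

lemma not_residual : G mu T ∉ residual E := fun h => not_dense (dense_of_mem_residual h)

end Pool.Agent.Q186.HCA
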