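import Mathlib
import Pool.Agent.Q186.HCA.Defs
import Pool.Agent.Q186.HCA.Space

set_option autoImplicit false

open scoped ENNReal
open Filter Topology Polynomial

namespace Pool.Agent.Q186.HCA

lemma separable_E : TopologicalSpace.SeparableSpace E := by
  rw [← TopologicalSpace.isSeparable_univ_iff]
  have h1 : TopologicalSpace.IsSeparable
      (Set.range fun i : ℕ => (lp.single 1 i (1 : ℂ) : E)) :=
    (Set.countable_range _).isSeparable
  have h2 := (h1.span (R := ℂ)).closure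
  refine h2.mono fun f _ => ?_
  have hs : HasSum (fun p => (lp.single 1 p (f p) : E)) f := lp.hasSum_single (by norm_num) f
  refine mem_closure_of_tendsto hs (Eventually.of_forall fun s => ?_)
  refine Submodule.sum_mem _ fun p _ => ?_
  have : (lp.single 1 p (f p) : E) = (f p) • (lp.single 1 p (1 : ℂ) : E) := by
    ext q
    rw [lp.coeFn_smul, Pi.smul_apply]
    by_cases h : q = p
    · subst h
      rw [lp.single_apply_self (E := fun _ : ℕ => ℂ), lp.single_apply_self (E := fun _ : ℕ => ℂ)]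
      simp
    · rw [lp.single_apply_ne (E := fun _ : ℕ => ℂ) 1 p _ h,
        lp.single_apply_ne (E := fun _ : ℕ => ℂ) 1 p _ h]
      simp
  rw [this]
  exact Submodule.smul_mem _ _ (Submodule.subset_span ⟨p, rfl⟩)

/-- an `m`-th root -/
noncomputable def rt (m : ℕ) (w : ℂ) : ℂ := w ^ ((m : ℂ)⁻¹)

lemma rt_pow {m : ℕ} (hm : m ≠ 0) (w : ℂ) : rt m w ^ m = w := Complex.cpow_nat_inv_pow w hm

/-- a large step is possible -/
lemma exists_step (m : ℕ) (hm : m ≠ 0) (D : ℝ) (N k : ℕ) : ∃ N' : ℕ, N + k < N' ∧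
    ∀ w : ℂ, ‖w‖ ≤ D → ∀ j, j ≤ k + 1 →
      ‖rt m (w / 2 ^ N')‖ * (((N' + j : ℕ) : ℝ) + 1) ^ 2 * 4 ^ N ≤ 1 := by
  have h1 : Tendsto (fun n : ℕ => ((n : ℝ) ^ (2 * m)) / 2 ^ n) atTop (𝓝 0) :=
    tendsto_pow_const_div_const_pow_of_one_lt (2 * m) (by norm_num)
  have h2 : Tendsto (fun n : ℕ => (|D| * 2 ^ (k + 2) * (4 ^ N) ^ m) *
      (((n : ℝ) ^ (2 * m)) / 2 ^ n)) atTop (𝓝 0) := by
    simpa using h1.const_mul (|D| * 2 ^ (k + 2) * (4 ^ N) ^ m)
  obtain ⟨M, hM⟩ := eventually_atTop.1 (h2.eventually (gt_mem_nhds (zero_lt_one' ℝ)))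
  refine ⟨max M (N + k + 1), by omega, fun w hw j hj => ?_⟩
  set N' := max M (N + k + 1) with hN'
  have h3 := hM (N' + (k + 2)) (by omega)
  set r := ‖rt m (w / 2 ^ N')‖ with hr
  have hrm : r ^ m = ‖w‖ / 2 ^ N' := by
    rw [hr, ← norm_pow, rt_pow hm, norm_div, norm_pow]; norm_num
  have hr0 : 0 ≤ r := norm_nonneg _
  have hle : (((N' + j : ℕ) : ℝ) + 1) ≤ ((N' + (k + 2) : ℕ) : ℝ) := by
    have : N' + j + 1 ≤ N' + (k + 2) := by omega
    exact_mod_cast this
  have h4 : (r * (((N' + j : ℕ) : ℝ) + 1) ^ 2 * 4 ^ N) ^ m ≤ 1 := by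
    calc (r * (((N' + j : ℕ) : ℝ) + 1) ^ 2 * 4 ^ N) ^ m
        = ‖w‖ / 2 ^ N' * (((N' + j : ℕ) : ℝ) + 1) ^ (2 * m) * (4 ^ N) ^ m := by
          rw [mul_pow, mul_pow, hrm, ← pow_mul]
      _ ≤ |D| / 2 ^ N' * ((N' + (k + 2) : ℕ) : ℝ) ^ (2 * m) * (4 ^ N) ^ m := by
          gcongr
          exact hw.trans (le_abs_self D)
      _ = (|D| * 2 ^ (k + 2) * (4 ^ N) ^ m) *
            ((((N' + (k + 2) : ℕ) : ℝ) ^ (2 * m)) / 2 ^ (N' + (k + 2))) := by
          rw [pow_add (2 : ℝ) N' (k + 2)]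
          field_simp
      _ ≤ 1 := h3.le
  by_contra hcon
  push Not at hcon
  exact absurd h4 (not_le.2 (one_lt_pow₀ hcon hm))

section construction

variable (d : ℕ → E) (a : ℕ → ℕ) (m : ℕ → ℕ) (hm : ∀ k, m k ≠ 0)

/-- the next position -/
noncomputable def next (k N : ℕ) : ℕ :=
  (exists_step (m (k + 1)) (hm (k + 1)) ‖d (a (k + 1))‖ N k).choose

/-- the positions -/
noncomputable def pos : ℕ → ℕ
  | 0 => 0
  | k + 1 => next d a m hm k (pos k)

lemma pos_lt (k : ℕ) : pos d a m hm k + k < pos d a m hm (k + 1) :=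
  (exists_step (m (k + 1)) (hm (k + 1)) ‖d (a (k + 1))‖ (pos d a m hm k) k).choose_spec.1

lemma pos_bound (k : ℕ) (w : ℂ) (hw : ‖w‖ ≤ ‖d (a (k + 1))‖) (j : ℕ) (hj : j ≤ k + 1) :
    ‖rt (m (k + 1)) (w / 2 ^ pos d a m hm (k + 1))‖ *
      (((pos d a m hm (k + 1) + j : ℕ) : ℝ) + 1) ^ 2 * 4 ^ pos d a m hm k ≤ 1 :=
  (exists_step (m (k + 1)) (hm (k + 1)) ‖d (a (k + 1))‖ (pos d a m hm k) k).choose_spec.2 w hw j hj

lemma pos_strictMono : StrictMono (pos d a m hm) :=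
  strictMono_nat_of_lt_succ fun k => by have := pos_lt d a m hm k; omega

/-- `p` is the `j`-th position of the block `k` -/
def IsBlock (p : ℕ) (q : ℕ × ℕ) : Prop := 1 ≤ q.1 ∧ q.2 ≤ q.1 ∧ p = pos d a m hm q.1 + q.2

lemma block_lt {p k k' j j' : ℕ} (h : IsBlock d a m hm p (k, j)) (h' : IsBlock d a m hm p (k', j'))
    : ¬ k < k' := by
  intro hlt
  obtain ⟨-, h2, h3⟩ := h
  obtain ⟨-, -, h3'⟩ := h'
  simp only at h2 h3 h3'
  have h4 := pos_lt d a m hm k
  have h5 := (pos_strictMono d a m hm).monotone (show k + 1 ≤ k' from hlt)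
  omega

lemma block_unique {p : ℕ} {q q' : ℕ × ℕ} (h : IsBlock d a m hm p q)
    (h' : IsBlock d a m hm p q') : q = q' := by
  obtain ⟨k, j⟩ := q
  obtain ⟨k', j'⟩ := q'
  have h1 := block_lt d a m hm h h'
  have h2 := block_lt d a m hm h' h
  have h3 : k = k' := by omega
  subst h3
  have h4 := h.2.2
  have h5 := h'.2.2
  simp only at h4 h5
  ext
  · rfl
  · simp only; omega

open Classical in
/-- the generator, as a function -/
noncomputable def zf (p : ℕ) : ℂ :=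
  if h : ∃ q : ℕ × ℕ, IsBlock d a m hm p q then
    rt (m h.choose.1) (d (a h.choose.1) h.choose.2 / 2 ^ pos d a m hm h.choose.1) else 0

lemma zf_block {k j : ℕ} (hk : 1 ≤ k) (hj : j ≤ k) :
    zf d a m hm (pos d a m hm k + j) = rt (m k) (d (a k) j / 2 ^ pos d a m hm k) := by
  have h : ∃ q : ℕ × ℕ, IsBlock d a m hm (pos d a m hm k + j) q := ⟨(k, j), hk, hj, rfl⟩
  have h2 : h.choose = (k, j) := block_unique d a m hm h.choose_spec ⟨hk, hj, rfl⟩
  unfold zf
  rw [dif_pos h, h2]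

/-- the basic bound -/
lemma zf_bound (k p : ℕ) (hp : pos d a m hm k + k < p) :
    ‖zf d a m hm p‖ * ((p : ℝ) + 1) ^ 2 * 4 ^ pos d a m hm k ≤ 1 := by
  by_cases h : ∃ q : ℕ × ℕ, IsBlock d a m hm p q
  · obtain ⟨⟨k', j⟩, hk', hj, hp'⟩ := h
    simp only at hk' hj hp'
    have hlt : k < k' := by
      by_contra hcon
      push Not at hcon
      have := (pos_strictMono d a m hm).monotone hcon
      omega
    obtain ⟨k'', rfl⟩ : ∃ k'', k' = k'' + 1 := ⟨k' - 1, by omega⟩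
    subst hp'
    rw [zf_block d a m hm hk' hj]
    have h1 := pos_bound d a m hm k'' (d (a (k'' + 1)) j) (norm_apply_le _ j) j hj
    refine le_trans ?_ h1
    have h2 : pos d a m hm k ≤ pos d a m hm k'' := (pos_strictMono d a m hm).monotone (by omega)
    gcongr
    norm_num
  · unfold zf
    rw [dif_neg h, norm_zero, zero_mul, zero_mul]
    exact zero_le_one

lemma zf_zero : zf d a m hm 0 = 0 := by
  unfold zf
  rw [dif_neg]
  rintro ⟨⟨k, j⟩, hk, hj, hp⟩
  simp only at hk hj hp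
  have h1 := (pos_strictMono d a m hm) (show 0 < k from hk)
  omega

lemma zf_le (p : ℕ) : ‖zf d a m hm p‖ ≤ 1 / ((p : ℝ) + 1) ^ 2 := by
  rcases Nat.eq_zero_or_pos p with h | h
  · subst h
    rw [zf_zero, norm_zero]; positivity
  · have h1 := zf_bound d a m hm 0 p (by simpa [pos] using h)
    rw [le_div_iff₀ (by positivity)]
    simpa [pos] using h1

lemma summ_sq : Summable fun p : ℕ => 1 / ((p : ℝ) + 1) ^ 2 := by
  have h1 : Summable fun j : ℕ => 1 / (((j + 1 : ℕ) : ℝ)) ^ 2 :=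
    (summable_nat_add_iff 1).2 (Real.summable_one_div_nat_pow.2 (by norm_num))
  refine h1.congr fun n => ?_
  push_cast
  rfl

/-- the generator -/
noncomputable def z : E := ⟨zf d a m hm, (memE _).2
  (Summable.of_nonneg_of_le (fun _ => norm_nonneg _) (zf_le d a m hm) summ_sq)⟩

lemma z_apply (p : ℕ) : z d a m hm p = zf d a m hm p := rfl

end construction

end Pool.Agent.Q186.HCA
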