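import Mathlib
import Pool.Agent.Q186.HCA.Defs
import Pool.Agent.Q186.HCA.Space
import Pool.Agent.Q186.HCA.Gen

set_option autoImplicit false

open scoped ENNReal
open Filter Topology Polynomial

namespace Pool.Agent.Q186.HCA

section main

variable (d : ℕ → E) (a : ℕ → ℕ) (m : ℕ → ℕ) (hm : ∀ k, m k ≠ 0)

/-- the orbit of a polynomial in `z` along a good sequence of blocks -/
lemma tendsto_orbit {R : ℂ[X]} {M i : ℕ} (hM : M ≠ 0) {y : E}
    (hy : ∀ n, y n = (z d a m hm n) ^ M * R.eval (z d a m hm n)) {K : ℕ → ℕ}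
    (hK : Tendsto K atTop atTop) (ha : ∀ r, a (K r) = i) (hmK : ∀ r, m (K r) = M) :
    Tendsto (fun r => ‖U^[pos d a m hm (K r)] y - (R.eval 0) • d i‖) atTop (𝓝 0) := by
  set n : ℕ → ℕ := pos d a m hm with hn
  set w : ℕ → ℂ := fun p => z d a m hm p with hw
  have hw1 : ∀ p, ‖w p‖ ≤ 1 / ((p : ℝ) + 1) ^ 2 := zf_le d a m hm
  have hw2 : ∀ p, ‖w p‖ ≤ 1 := by
    intro p
    refine (hw1 p).trans ?_
    rw [div_le_one (by positivity)]
    have : (0 : ℝ) ≤ p := by positivity
    nlinarith
  obtain ⟨C, hC⟩ := (isCompact_closedBall (0 : ℂ) 1).exists_bound_of_continuousOn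
    (f := fun t => R.eval t) R.continuous.continuousOn
  have hC' : ∀ p, ‖R.eval (w p)‖ ≤ C := fun p => hC _ (by simpa using hw2 p)
  have hC0 : 0 ≤ C := (norm_nonneg _).trans (hC' 0)
  -- the norm as a series
  have hnorm : ∀ r, ‖U^[n (K r)] y - (R.eval 0) • d i‖ =
      ∑' j, ‖(2 : ℂ) ^ n (K r) * y (j + n (K r)) - R.eval 0 * d i j‖ := by
    intro r
    rw [normE]
    refine tsum_congr fun j => ?_
    rw [lp.coeFn_sub, Pi.sub_apply, lp.coeFn_smul, Pi.smul_apply, U_iter, smul_eq_mul]
  simp only [hnorm]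
  have hzero : (0 : ℝ) = ∑' _ : ℕ, (0 : ℝ) := tsum_zero.symm
  rw [hzero]
  refine tendsto_tsum_of_dominated_convergence
    (bound := fun j => (C + ‖R.eval 0‖) * ‖d i j‖ + C * (1 / ((j : ℝ) + 1) ^ 2)) ?_ ?_ ?_
  · exact ((summE (d i)).mul_left _).add (summ_sq.mul_left _)
  · -- pointwise convergence
    intro j
    have h1 : Tendsto (fun r => w (n (K r) + j)) atTop (𝓝 0) := by
      have h2 : Tendsto (fun r => n (K r) + j) atTop atTop :=
        tendsto_atTop_mono (fun r => Nat.le_add_right _ _)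
          (((pos_strictMono d a m hm).tendsto_atTop).comp hK)
      have h3 : Tendsto w atTop (𝓝 0) := by
        have := (summE (z d a m hm)).tendsto_atTop_zero
        exact tendsto_zero_iff_norm_tendsto_zero.2 this
      exact h3.comp h2
    have h2 : Tendsto (fun r => ‖d i j * R.eval (w (n (K r) + j)) - R.eval 0 * d i j‖) atTop
        (𝓝 0) := by
      have h3 := (R.continuous.tendsto 0).comp h1
      have h4 : Tendsto (fun r => d i j * R.eval (w (n (K r) + j)) - R.eval 0 * d i j) atTop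
          (𝓝 (d i j * R.eval 0 - R.eval 0 * d i j)) := (h3.const_mul _).sub_const _
      have h5 := h4.norm
      rw [show d i j * R.eval 0 - R.eval 0 * d i j = 0 by ring, norm_zero] at h5
      exact h5
    refine h2.congr' ?_
    filter_upwards [hK.eventually_ge_atTop (max 1 j)] with r hr
    have hz : w (n (K r) + j) = rt M (d i j / 2 ^ n (K r)) := by
      have := zf_block d a m hm (k := K r) (j := j) (by omega) (by omega)
      rw [ha r, hmK r] at this
      exact this
    have h6 : w (n (K r) + j) ^ M = d i j / 2 ^ n (K r) := by rw [hz, rt_pow hM]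
    have h7 : y (j + n (K r)) = d i j / 2 ^ n (K r) * R.eval (w (n (K r) + j)) := by
      rw [hy, add_comm j, ← h6]
    rw [h7]
    congr 2
    field_simp
  · -- domination
    filter_upwards [hK.eventually_ge_atTop 1] with r hr j
    rw [norm_norm]
    by_cases hj : j ≤ K r
    · have hz : w (n (K r) + j) = rt M (d i j / 2 ^ n (K r)) := by
        have := zf_block d a m hm (k := K r) (j := j) hr hj
        rw [ha r, hmK r] at this
        exact this
      have h6 : w (n (K r) + j) ^ M = d i j / 2 ^ n (K r) := by rw [hz, rt_pow hM]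
      have h7 : y (j + n (K r)) = d i j / 2 ^ n (K r) * R.eval (w (n (K r) + j)) := by
        rw [hy, add_comm j, ← h6]
      have h8 : (2 : ℂ) ^ n (K r) * y (j + n (K r)) = d i j * R.eval (w (n (K r) + j)) := by
        rw [h7]; field_simp
      rw [h8]
      have h9 : ‖d i j * R.eval (w (n (K r) + j)) - R.eval 0 * d i j‖ ≤
          (C + ‖R.eval 0‖) * ‖d i j‖ := by
        refine (norm_sub_le _ _).trans ?_
        rw [norm_mul, norm_mul, add_mul]
        have := mul_le_mul_of_nonneg_left (hC' (n (K r) + j)) (norm_nonneg (d i j))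
        linarith
      have h10 : 0 ≤ C * (1 / ((j : ℝ) + 1) ^ 2) := by positivity
      linarith
    · push Not at hj
      have h1 := zf_bound d a m hm (K r) (n (K r) + j) (by change n (K r) + K r < _; omega)
      have h2 : ‖y (j + n (K r))‖ ≤ C * ‖w (n (K r) + j)‖ := by
        rw [hy, norm_mul, norm_pow, add_comm j]
        have h3 : ‖w (n (K r) + j)‖ ^ M ≤ ‖w (n (K r) + j)‖ :=
          pow_le_of_le_one (norm_nonneg _) (hw2 _) hM
        calc ‖w (n (K r) + j)‖ ^ M * ‖R.eval (w (n (K r) + j))‖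
            ≤ ‖w (n (K r) + j)‖ * C := mul_le_mul h3 (hC' _) (norm_nonneg _) (norm_nonneg _)
          _ = _ := mul_comm _ _
      have h3 : (2 : ℝ) ^ n (K r) * ‖w (n (K r) + j)‖ ≤ 1 / ((j : ℝ) + 1) ^ 2 := by
        rw [le_div_iff₀ (by positivity)]
        refine le_trans ?_ h1
        have h4 : (2 : ℝ) ^ n (K r) ≤ 4 ^ n (K r) := by gcongr; norm_num
        have h5 : ((j : ℝ) + 1) ^ 2 ≤ (((n (K r) + j : ℕ) : ℝ) + 1) ^ 2 := by
          push_cast
          have : (0 : ℝ) ≤ n (K r) := by positivity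
          gcongr
          linarith
        calc (2 : ℝ) ^ n (K r) * ‖w (n (K r) + j)‖ * ((j : ℝ) + 1) ^ 2
            ≤ 4 ^ n (K r) * ‖w (n (K r) + j)‖ * (((n (K r) + j : ℕ) : ℝ) + 1) ^ 2 := by gcongr
          _ = ‖zf d a m hm (n (K r) + j)‖ * (((n (K r) + j : ℕ) : ℝ) + 1) ^ 2 * 4 ^ n (K r) := by
              change 4 ^ n (K r) * ‖zf d a m hm (n (K r) + j)‖ * _ = _
              ring
      have h4 : ‖(2 : ℂ) ^ n (K r) * y (j + n (K r))‖ ≤ C * (1 / ((j : ℝ) + 1) ^ 2) := by
        rw [norm_mul, norm_pow]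
        have : ‖(2 : ℂ)‖ = 2 := by norm_num
        rw [this]
        calc (2 : ℝ) ^ n (K r) * ‖y (j + n (K r))‖
            ≤ (2 : ℝ) ^ n (K r) * (C * ‖w (n (K r) + j)‖) := by gcongr
          _ = C * ((2 : ℝ) ^ n (K r) * ‖w (n (K r) + j)‖) := by ring
          _ ≤ _ := mul_le_mul_of_nonneg_left h3 hC0
      refine (norm_sub_le _ _).trans ?_
      rw [norm_mul (R.eval 0)]
      have h5 : 0 ≤ C * ‖d i j‖ := by positivity
      nlinarith

end main

/-- there is a good generator -/
lemma exists_generator : ∃ x : E, x 0 = 0 ∧ ∀ (R : ℂ[X]) (M : ℕ), M ≠ 0 → R.eval 0 ≠ 0 →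
    ∀ y : E, (∀ n, y n = x n ^ M * R.eval (x n)) → Hypercyclic U y := by
  have := separable_E
  set d : ℕ → E := TopologicalSpace.denseSeq E with hd
  set a : ℕ → ℕ := fun k => (k.unpair.1).unpair.1 with ha
  set m : ℕ → ℕ := fun k => (k.unpair.1).unpair.2 + 1 with hm
  have hm0 : ∀ k, m k ≠ 0 := fun k => Nat.succ_ne_zero _
  refine ⟨z d a m hm0, zf_zero d a m hm0, fun R M hM hR y hy => ?_⟩
  unfold Hypercyclic
  rw [Metric.dense_iff]
  intro v ε hε
  -- approximate `v / R(0)` by `d i`
  have hR' : 0 < ‖R.eval 0‖ := norm_pos_iff.2 hR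
  obtain ⟨_, hb, ⟨i, rfl⟩⟩ := Metric.dense_iff.1 (TopologicalSpace.denseRange_denseSeq E)
    ((R.eval 0)⁻¹ • v) (ε / (2 * ‖R.eval 0‖)) (by positivity)
  set K : ℕ → ℕ := fun r => Nat.pair (Nat.pair i (M - 1)) r with hKdef
  have hK : Tendsto K atTop atTop := by
    refine tendsto_atTop_mono (fun r => ?_) tendsto_id
    exact Nat.right_le_pair _ _
  have h1 := tendsto_orbit d a m hm0 (i := i) hM hy hK (fun r => by simp [ha, hKdef])
    (fun r => by simp only [hm, hKdef, Nat.unpair_pair]; omega)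
  obtain ⟨r, hr⟩ := (h1.eventually (gt_mem_nhds (show (0 : ℝ) < ε / 2 by positivity))).exists
  refine ⟨_, ?_, ⟨pos d a m hm0 (K r), rfl⟩⟩
  rw [Metric.mem_ball, dist_eq_norm] at hb ⊢
  have h2 : ‖(R.eval 0) • d i - v‖ < ε / 2 := by
    have h3 : (R.eval 0) • d i - v = (R.eval 0) • (d i - (R.eval 0)⁻¹ • v) := by
      rw [smul_sub, smul_smul, mul_inv_cancel₀ hR, one_smul]
    rw [h3, norm_smul]
    have h4 := mul_lt_mul_of_pos_left hb hR'
    refine h4.trans_eq ?_
    field_simp
  calc ‖U^[pos d a m hm0 (K r)] y - v‖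
      = ‖(U^[pos d a m hm0 (K r)] y - (R.eval 0) • d i) + ((R.eval 0) • d i - v)‖ := by
        congr 1; abel
    _ ≤ _ := norm_add_le _ _
    _ < ε := by linarith

/-- the elements of `A(x)` are polynomials in `x` -/
lemma alg_poly {x y : E} (hy : y ∈ Alg mu x) :
    ∃ P : ℂ[X], P.eval 0 = 0 ∧ ∀ n, y n = P.eval (x n) := by
  unfold Alg at hy
  induction hy using Submodule.span_induction with
  | mem y hy =>
    obtain ⟨k, rfl⟩ := hy
    exact ⟨X ^ (k + 1), by simp, fun n => by rw [pw_apply]; simp⟩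
  | zero => exact ⟨0, by simp, fun n => by rw [lp.coeFn_zero]; simp⟩
  | add y y' _ _ h h' =>
    obtain ⟨P, hP, hP'⟩ := h
    obtain ⟨Q, hQ, hQ'⟩ := h'
    exact ⟨P + Q, by rw [eval_add, hP, hQ, add_zero], fun n => by
      rw [lp.coeFn_add, Pi.add_apply, hP' n, hQ' n, eval_add]⟩
  | smul c y _ h =>
    obtain ⟨P, hP, hP'⟩ := h
    exact ⟨C c * P, by rw [eval_mul, hP, mul_zero], fun n => by
      rw [lp.coeFn_smul, Pi.smul_apply, hP' n, eval_mul, eval_C, smul_eq_mul]⟩

/-- a vector with a finite orbit is not hypercyclic -/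
lemma not_hypercyclic_of_zero {y : E} {N : ℕ} (h : U^[N] y = 0) : ¬ Hypercyclic U y := by
  intro hd
  have hfin : (Set.range fun k : ℕ => U^[k] y).Finite := by
    refine (((Set.finite_lt_nat N).image fun k => U^[k] y).union
      (Set.finite_singleton (0 : E))).subset ?_
    rintro _ ⟨k, rfl⟩
    by_cases hk : k < N
    · exact Or.inl ⟨k, hk, rfl⟩
    · right
      obtain ⟨j, rfl⟩ := Nat.exists_eq_add_of_le (not_lt.1 hk)
      simp only [Set.mem_singleton_iff]
      rw [add_comm, Function.iterate_add_apply, h]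
      exact iterate_map_zero U j
  have h1 : (Set.univ : Set E).Finite := by
    have h2 := hd.closure_eq
    rw [hfin.isClosed.closure_eq] at h2
    rwa [h2] at hfin
  have hinf : (Metric.ball (0 : E) 1).Infinite := by
    have : Nontrivial E := ⟨⟨_, _, single_ne⟩⟩
    have : (𝓝[≠] (0 : E)).NeBot := inferInstance
    exact infinite_of_mem_nhds 0 (Metric.ball_mem_nhds 0 one_pos)
  exact hinf (h1.subset (Set.subset_univ _))

lemma nonempty_G : (G mu T).Nonempty := by
  obtain ⟨x, hx0, hx⟩ := exists_generator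
  -- every nonzero polynomial without constant term is good
  have key : ∀ y ∈ Alg mu x, y ≠ 0 → Hypercyclic T y := by
    intro y hy hy0
    obtain ⟨P, hP0, hP⟩ := alg_poly hy
    have hPne : P ≠ 0 := by
      rintro rfl
      apply hy0
      ext n
      rw [hP n]; simp
    obtain ⟨R, hR1, hR2⟩ := P.exists_eq_pow_rootMultiplicity_mul_and_not_dvd hPne 0
    have hM : P.rootMultiplicity 0 ≠ 0 := by
      have := (Polynomial.rootMultiplicity_pos hPne).2 (show P.IsRoot 0 from hP0)
      omega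
    have hR0 : R.eval 0 ≠ 0 := by
      intro h
      exact hR2 (Polynomial.dvd_iff_isRoot.2 h)
    have hy00 : y 0 = 0 := by rw [hP 0, hx0, hP0]
    rw [hypercyclic_iff]
    have hV : V y = y := by rw [V_apply, hy00, zero_smul, add_zero]
    rw [hV]
    refine hx R _ hM hR0 y fun n => ?_
    rw [hP n]
    conv_lhs => rw [hR1]
    rw [eval_mul, eval_pow, eval_sub, eval_X, eval_C, sub_zero]
  refine ⟨x, ?_, key⟩
  rintro rfl
  -- `x ≠ 0` since otherwise `0` would be hypercyclic
  have h1 := hx 1 1 one_ne_zero (by simp) 0 (fun n => by simp)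
  exact not_hypercyclic_of_zero (N := 0) rfl h1

/-- the powers of the elements of `G(T)` are linearly independent -/
lemma linearIndependent_pw {x : E} (hx : x ∈ G mu T) : LinearIndependent ℂ (pw mu x) := by
  rw [linearIndependent_iff']
  intro s c hc
  by_contra hne
  push Not at hne
  obtain ⟨k0, hk0, hck0⟩ := hne
  set P : ℂ[X] := ∑ k ∈ s, C (c k) * X ^ (k + 1) with hP
  have hPne : P ≠ 0 := by
    intro h
    have h1 : P.coeff (k0 + 1) = c k0 := by
      rw [hP, finsetSum_coeff, Finset.sum_eq_single k0]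
      · simp
      · intro k _ hk
        rw [coeff_C_mul, coeff_X_pow, if_neg (by omega), mul_zero]
      · intro h; exact absurd hk0 h
    rw [h, coeff_zero] at h1
    exact hck0 h1.symm
  have hroot : ∀ n, P.eval (x n) = 0 := by
    intro n
    have h1 : (∑ k ∈ s, c k • pw mu x k) n = 0 := by rw [hc]; rfl
    rw [lp.coeFn_sum, Finset.sum_apply] at h1
    rw [hP, eval_finsetSum, ← h1]
    refine Finset.sum_congr rfl fun k _ => ?_
    rw [lp.coeFn_smul, Pi.smul_apply, pw_apply, smul_eq_mul]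
    simp
  -- the coordinates of `x` are zero eventually
  have hx0 : Tendsto (fun n => x n) atTop (𝓝 0) :=
    tendsto_zero_iff_norm_tendsto_zero.2 (summE x).tendsto_atTop_zero
  have hF : ((P.roots.toFinset : Set ℂ) \ {0}).Finite := (Finset.finite_toSet _).subset
    Set.sdiff_subset
  have hnhds : ((P.roots.toFinset : Set ℂ) \ {0})ᶜ ∈ 𝓝 (0 : ℂ) :=
    hF.isClosed.isOpen_compl.mem_nhds (by simp)
  obtain ⟨N, hN⟩ := eventually_atTop.1 (hx0.eventually hnhds)
  have hzero : ∀ n, N ≤ n → x n = 0 := by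
    intro n hn
    by_contra h0
    refine hN n hn ⟨?_, h0⟩
    simp [hPne, hroot n, IsRoot]
  have hU : U^[N] x = 0 := by
    ext n
    rw [U_iter, hzero (n + N) (by omega), mul_zero]; rfl
  have hxx : x ∈ Alg mu x := Submodule.subset_span ⟨0, rfl⟩
  have h1 := hx.2 x hxx hx.1
  rw [hypercyclic_iff, V_apply, G_subset hx, zero_smul, add_zero] at h1
  exact not_hypercyclic_of_zero hU h1

theorem counterexample : Counterexample E := by
  refine ⟨mu, T, fun x y z => ?_, fun x y => ?_, fun x h => ?_, nonempty_G,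
    fun x hx => linearIndependent_pw hx, not_dense, not_residual⟩
  · ext n
    rw [mu_apply, mu_apply, mu_apply, mu_apply, mul_assoc]
  · ext n
    rw [mu_apply, mu_apply, mul_comm]
  · ext n
    have h1 : (mu x x) n = 0 := by rw [h]; rfl
    rw [mu_apply] at h1
    rw [lp.coeFn_zero, Pi.zero_apply]
    exact mul_self_eq_zero.1 h1

end Pool.Agent.Q186.HCA
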